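import Pool.Agent.H433.AC.Fac
import Pool.Agent.H433.GT.Mult
import Pool.Agent.H433.HD.Def

/-!
Factorization of a product of integers without large common divisors and without large square
divisors.
-/

set_option autoImplicit false
set_option linter.unusedSectionVars false

open NumberField IsDedekindDomain Finset

namespace Pool.Agent.H433.CP

open Pool.Agent.H433.AC Pool.Agent.H433.HD Pool.Agent.H433.GT

variable {K : Type} [Field K] [NumberField K] {k : ℕ}

open Classical in
/-- The norm of one factor. -/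
theorem one_le_fac {Y : ℝ} (hY : 1 ≤ Y) {x : Fin k → 𝓞 K} (hx : ∀ i, x i ≠ 0) {c : 𝓞 K}
    (hc : c ≠ 0) (h1 : ∀ i, ∀ I : Ideal (𝓞 K), x i ∈ I ^ 2 → (Ideal.absNorm I : ℝ) < Y)
    (h2 : ∀ i j, i ≠ j → ∀ I : Ideal (𝓞 K), x i ∈ I → x j ∈ I → (Ideal.absNorm I : ℝ) < Y)
    (i : Fin k) (V : Finset (HeightOneSpectrum (𝓞 K)))
    (hV : ∀ v : HeightOneSpectrum (𝓞 K), x i ∈ v.asIdeal → v ∈ V) :
    (Nm (x i) : ℝ) ≤ (∏ v ∈ V, if Once (c * ∏ j, x j) v ∧ x i ∈ v.asIdeal then (nv v : ℝ) else 1) *
      (Y ^ (3 + k) * Nm c) := by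
  set D := c * ∏ j, x j with hD
  have hnv : ∀ v : HeightOneSpectrum (𝓞 K), (1 : ℝ) ≤ nv v := fun v => by
    exact_mod_cast (one_lt_nv v).le
  rw [Nm_prod (hx i) V hV]
  push_cast
  -- the local factors
  set s : HeightOneSpectrum (𝓞 K) → ℝ := fun v =>
    if Once D v ∧ x i ∈ v.asIdeal then (nv v : ℝ) else 1 with hs
  set u : HeightOneSpectrum (𝓞 K) → ℝ := fun v =>
    if 2 ≤ mp v (x i) then (nv v : ℝ) ^ mp v (x i) else 1 with hu
  set w : HeightOneSpectrum (𝓞 K) → ℝ := fun v => if c ∈ v.asIdeal then (nv v : ℝ) else 1 with hw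
  set g : Fin k → HeightOneSpectrum (𝓞 K) → ℝ := fun j v =>
    if j ≠ i ∧ x i ∈ v.asIdeal ∧ x j ∈ v.asIdeal then (nv v : ℝ) else 1 with hg
  have hs1 : ∀ v, 1 ≤ s v := fun v => by
    rw [hs]
    dsimp only
    split_ifs
    · exact hnv v
    · exact le_refl _
  have hu1 : ∀ v, 1 ≤ u v := fun v => by
    rw [hu]
    dsimp only
    split_ifs
    · exact one_le_pow₀ (hnv v)
    · exact le_refl _
  have hw1 : ∀ v, 1 ≤ w v := fun v => by
    rw [hw]
    dsimp only
    split_ifs
    · exact hnv v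
    · exact le_refl _
  have hg1 : ∀ q v, 1 ≤ g q v := fun q v => by
    rw [hg]
    dsimp only
    split_ifs
    · exact hnv v
    · exact le_refl _
  have hG1 : ∀ v, 1 ≤ ∏ q, g q v := fun v => by
    rw [← prod_const_one (s := (univ : Finset (Fin k)))]
    exact prod_le_prod (fun _ _ => zero_le_one) fun q _ => hg1 q v
  have hloc : ∀ v ∈ V, (nv v : ℝ) ^ mp v (x i) ≤ s v * (u v * (w v * ∏ q, g q v)) := by
    intro v _
    have e1 := hs1 v
    have e2 := hu1 v
    have e3 := hw1 v
    have e4 := hG1 v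
    have e5 := hnv v
    have f1 : 1 ≤ w v * ∏ q, g q v := one_le_mul_of_one_le_of_one_le e3 e4
    have f2 : 1 ≤ u v * (w v * ∏ q, g q v) := one_le_mul_of_one_le_of_one_le e2 f1
    rcases Nat.lt_or_ge (mp v (x i)) 2 with h3 | h3
    · rcases Nat.lt_or_ge (mp v (x i)) 1 with h4 | h4
      · have : mp v (x i) = 0 := by omega
        rw [this, pow_zero]
        exact one_le_mul_of_one_le_of_one_le e1 f2
      · have h5 : mp v (x i) = 1 := by omega
        rw [h5, pow_one]
        have h6 : x i ∈ v.asIdeal := (mem_iff_mp (hx i)).2 h4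
        by_cases h8 : c ∈ v.asIdeal
        · have h9 : w v = nv v := if_pos h8
          rw [h9] at f1 f2 ⊢
          have h10 : (nv v : ℝ) ≤ nv v * ∏ q, g q v := le_mul_of_one_le_right (by linarith) e4
          have h11 : (nv v : ℝ) * ∏ q, g q v ≤ u v * (nv v * ∏ q, g q v) :=
            le_mul_of_one_le_left (by linarith) e2
          have h12 := le_mul_of_one_le_left (by linarith : 0 ≤ u v * (nv v * ∏ q, g q v)) e1
          linarith
        · by_cases h7 : ∃ q, q ≠ i ∧ x q ∈ v.asIdeal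
          · obtain ⟨q, hqp, hqv⟩ := h7
            have h8 : g q v = nv v := if_pos ⟨hqp, h6, hqv⟩
            have h9 : (nv v : ℝ) ≤ ∏ q, g q v := by
              rw [← h8, ← mul_prod_erase _ _ (mem_univ q)]
              refine le_mul_of_one_le_right (by linarith [hg1 q v]) ?_
              rw [← prod_const_one (s := univ.erase q)]
              exact prod_le_prod (fun _ _ => zero_le_one) fun q _ => hg1 q v
            have h10 := le_mul_of_one_le_left (by linarith : 0 ≤ ∏ q, g q v) e3
            have h11 := le_mul_of_one_le_left (by linarith : 0 ≤ w v * ∏ q, g q v) e2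
            have h12 := le_mul_of_one_le_left
              (by linarith : 0 ≤ u v * (w v * ∏ q, g q v)) e1
            linarith
          · have h9 : mp v D = 1 := by
              have h10 : ∏ j, x j ≠ 0 := prod_ne_zero_iff.2 fun j _ => hx j
              rw [hD, mp_mul hc h10, mp_prod _ _ fun j _ => hx j,
                sum_eq_single_of_mem i (mem_univ i) fun j _ hj => ?_, h5]
              · have : mp v c = 0 := by
                  by_contra hne
                  exact h8 ((mem_iff_mp hc).2 (by omega))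
                omega
              · by_contra hne
                exact h7 ⟨j, hj, (mem_iff_mp (hx j)).2 (by omega)⟩
            have hD0 : D ≠ 0 := mul_ne_zero hc (prod_ne_zero_iff.2 fun j _ => hx j)
            have h10 : Once D v := ⟨(mem_iff_mp hD0).2 (by omega), fun h => by
              have := (le_mp hD0 2).1 h
              omega⟩
            have h11 : s v = nv v := if_pos ⟨h10, h6⟩
            rw [h11]
            exact le_mul_of_one_le_right (by linarith) f2
    · have h4 : u v = (nv v : ℝ) ^ mp v (x i) := if_pos h3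
      rw [h4] at e2 f2 ⊢
      have h5 := le_mul_of_one_le_right (by linarith : 0 ≤ (nv v : ℝ) ^ mp v (x i)) f1
      have h6 := le_mul_of_one_le_left
        (by linarith : 0 ≤ (nv v : ℝ) ^ mp v (x i) * (w v * ∏ q, g q v)) e1
      linarith
  have hU : ∏ v ∈ V, u v ≤ Y ^ 3 := by
    set S := V.filter fun v => 2 ≤ mp v (x i) with hS
    have e1 : ∏ v ∈ V, u v = ∏ v ∈ S, (nv v : ℝ) ^ mp v (x i) := by
      rw [hS, prod_filter]
    have e2 : ∏ v ∈ S, (nv v : ℝ) ^ mp v (x i) ≤ (∏ v ∈ S, (nv v : ℝ) ^ (mp v (x i) / 2)) ^ 3 := by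
      rw [← prod_pow]
      refine prod_le_prod (fun v _ => by positivity) fun v hv => ?_
      rw [← pow_mul]
      rw [hS, mem_filter] at hv
      exact pow_le_pow_right₀ (hnv v) (by omega)
    have e3 : ∏ v ∈ S, (nv v : ℝ) ^ (mp v (x i) / 2) < Y := by
      have f1 := h1 i (∏ v ∈ S, v.asIdeal ^ (mp v (x i) / 2)) ?_
      · rw [absNorm_prod] at f1
        push_cast at f1
        exact f1
      · rw [← prod_pow, ← Ideal.dvd_span_singleton]
        have f2 := prod_dvd S (fun v => mp v (x i) / 2 * 2) (Ideal.span {x i}) fun v _ => by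
          rw [Ideal.dvd_span_singleton, le_mp (hx i)]
          omega
        simpa only [pow_mul] using f2
    rw [e1]
    exact e2.trans (pow_le_pow_left₀ (prod_nonneg fun v _ => by positivity) e3.le 3)
  have hW : ∏ v ∈ V, w v ≤ Nm c := by
    set S := V.filter fun v => c ∈ v.asIdeal with hS
    have e1 : ∏ v ∈ V, w v = ∏ v ∈ S, (nv v : ℝ) := by
      rw [hS, prod_filter]
    have e2 : ∏ v ∈ S, v.asIdeal ∣ Ideal.span {c} := by
      refine prod_one_dvd S _ fun v hv => ?_
      rw [hS, mem_filter] at hv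
      exact Ideal.dvd_span_singleton.2 hv.2
    have e3 : ∏ v ∈ S, nv v ∣ Nm c := by
      have := Ideal.absNorm_dvd_absNorm_of_le (Ideal.dvd_iff_le.1 e2)
      rw [map_prod] at this
      exact this
    rw [e1]
    exact_mod_cast Nat.le_of_dvd (Nat.pos_of_ne_zero (Nm_ne hc)) e3
  have hGq : ∀ q, ∏ v ∈ V, g q v ≤ Y := by
    intro q
    by_cases hqp : q = i
    · have : ∀ v ∈ V, g q v = 1 := fun v _ => if_neg fun h => h.1 hqp
      rw [prod_congr rfl this, prod_const_one]
      exact hY
    set S := V.filter fun v => q ≠ i ∧ x i ∈ v.asIdeal ∧ x q ∈ v.asIdeal with hS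
    have e1 : ∏ v ∈ V, g q v = ∏ v ∈ S, (nv v : ℝ) := by
      rw [hS, prod_filter]
    have e2 : ∏ v ∈ S, v.asIdeal ∣ Ideal.span {x i} := by
      refine prod_one_dvd S _ fun v hv => ?_
      rw [hS, mem_filter] at hv
      exact Ideal.dvd_span_singleton.2 hv.2.2.1
    have e3 : ∏ v ∈ S, v.asIdeal ∣ Ideal.span {x q} := by
      refine prod_one_dvd S _ fun v hv => ?_
      rw [hS, mem_filter] at hv
      exact Ideal.dvd_span_singleton.2 hv.2.2.2
    have e4 := h2 i q (Ne.symm hqp) _ (Ideal.dvd_span_singleton.1 e2)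
      (Ideal.dvd_span_singleton.1 e3)
    rw [map_prod] at e4
    push_cast at e4
    rw [e1]
    exact e4.le
  have hG : ∏ v ∈ V, ∏ q, g q v ≤ Y ^ k := by
    rw [prod_comm]
    have h3 : ∏ q : Fin k, ∏ v ∈ V, g q v ≤ ∏ _q : Fin k, Y :=
      prod_le_prod (fun q _ => prod_nonneg fun v _ => by linarith [hg1 q v]) fun q _ => hGq q
    rwa [prod_const, card_univ, Fintype.card_fin] at h3
  have hS0 : 0 ≤ ∏ v ∈ V, s v := prod_nonneg fun v _ => by linarith [hs1 v]
  calc ∏ v ∈ V, (nv v : ℝ) ^ mp v (x i) ≤ ∏ v ∈ V, s v * (u v * (w v * ∏ q, g q v)) :=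
        prod_le_prod (fun v _ => by positivity) hloc
    _ = (∏ v ∈ V, s v) * ((∏ v ∈ V, u v) * ((∏ v ∈ V, w v) * ∏ v ∈ V, ∏ q, g q v)) := by
        rw [prod_mul_distrib, prod_mul_distrib, prod_mul_distrib]
    _ ≤ (∏ v ∈ V, s v) * (Y ^ 3 * (Nm c * Y ^ k)) := by
        refine mul_le_mul_of_nonneg_left ?_ hS0
        refine mul_le_mul hU (mul_le_mul hW hG ?_ (Nat.cast_nonneg _)) ?_ (by positivity)
        · exact prod_nonneg fun v _ => by linarith [hG1 v]
        · exact mul_nonneg (prod_nonneg fun v _ => by linarith [hw1 v])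
            (prod_nonneg fun v _ => by linarith [hG1 v])
    _ = (∏ v ∈ V, s v) * (Y ^ (3 + k) * Nm c) := by
        rw [pow_add]
        ring

/-- The product of the norms of the factors is not much larger than the product of the primes which
divide the product exactly once. -/
theorem fam_le {Y : ℝ} (hY : 1 ≤ Y) {x : Fin k → 𝓞 K} (hx : ∀ i, x i ≠ 0) {c : 𝓞 K}
    (hc : c ≠ 0) (h1 : ∀ i, ∀ I : Ideal (𝓞 K), x i ∈ I ^ 2 → (Ideal.absNorm I : ℝ) < Y)
    (h2 : ∀ i j, i ≠ j → ∀ I : Ideal (𝓞 K), x i ∈ I → x j ∈ I → (Ideal.absNorm I : ℝ) < Y) :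
    ∑ i, Real.log (Nm (x i)) ≤
      once (c * ∏ i, x i) + k * ((3 + k) * Real.log Y + Real.log (Nm c)) := by
  classical
  set D := c * ∏ j, x j with hD
  have hP : ∏ j, x j ≠ 0 := prod_ne_zero_iff.2 fun j _ => hx j
  have hD0 : D ≠ 0 := mul_ne_zero hc hP
  set V : Finset (HeightOneSpectrum (𝓞 K)) := (finite_mem hD0).toFinset with hV
  have hmV (v : HeightOneSpectrum (𝓞 K)) : v ∈ V ↔ D ∈ v.asIdeal := by
    rw [hV, Set.Finite.mem_toFinset]
    exact Iff.rfl
  have hxV (i : Fin k) (v : HeightOneSpectrum (𝓞 K)) (h : x i ∈ v.asIdeal) : v ∈ V := by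
    rw [hmV, hD, ← mul_prod_erase _ _ (mem_univ i), ← mul_assoc, mul_comm c, mul_assoc]
    exact Ideal.mul_mem_right _ _ h
  have e0 : once D = ∑ v ∈ V, if Once D v then Real.log (nv v) else 0 := by
    unfold once
    refine finsum_eq_sum_of_support_subset (s := V) _ fun v hv => ?_
    rw [Function.mem_support] at hv
    rw [mem_coe, hmV]
    by_contra hcon
    rw [if_neg fun h => hcon h.1] at hv
    exact hv rfl
  have h3 (i : Fin k) : Real.log (Nm (x i)) ≤
      (∑ v ∈ V, if Once D v ∧ x i ∈ v.asIdeal then Real.log (nv v) else 0) +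
        ((3 + k) * Real.log Y + Real.log (Nm c)) := by
    have e1 := one_le_fac hY hx hc h1 h2 i V (hxV i)
    have e2 : (0 : ℝ) < Nm (x i) := by
      exact_mod_cast Nat.pos_of_ne_zero (Nm_ne (hx i))
    have e3 := Real.log_le_log e2 e1
    have e4 : (0 : ℝ) < Nm c := by
      exact_mod_cast Nat.pos_of_ne_zero (Nm_ne hc)
    have e5 (v : HeightOneSpectrum (𝓞 K)) :
        (if Once D v ∧ x i ∈ v.asIdeal then (nv v : ℝ) else 1) ≠ 0 := by
      have := one_lt_nv v
      split_ifs
      · have : (nv v : ℝ) ≠ 0 := by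
          rw [Nat.cast_ne_zero]
          omega
        exact this
      · exact one_ne_zero
    have e6 : (0 : ℝ) < Y ^ (3 + k) := pow_pos (by linarith) _
    rw [Real.log_mul (prod_ne_zero_iff.2 fun v _ => e5 v) (mul_pos e6 e4).ne',
      Real.log_mul e6.ne' e4.ne', Real.log_pow, Real.log_prod fun v _ => e5 v] at e3
    push_cast at e3
    have e7 : ∑ v ∈ V, Real.log (if Once D v ∧ x i ∈ v.asIdeal then (nv v : ℝ) else 1) =
        ∑ v ∈ V, if Once D v ∧ x i ∈ v.asIdeal then Real.log (nv v) else 0 := by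
      refine sum_congr rfl fun v _ => ?_
      split_ifs
      · rfl
      · exact Real.log_one
    rw [e7] at e3
    exact e3
  have h4 := sum_le_sum fun i (_ : i ∈ (univ : Finset (Fin k))) => h3 i
  refine h4.trans ?_
  rw [sum_add_distrib, sum_const, card_univ, Fintype.card_fin, nsmul_eq_mul, sum_comm, e0]
  refine add_le_add (sum_le_sum fun v _ => ?_) le_rfl
  have hlv := log_nv_pos v
  by_cases hO : Once D v
  · rw [if_pos hO]
    have h5 : mp v D = 1 := by
      have h6 := (mem_iff_mp hD0).1 hO.1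
      have h7 : ¬ 2 ≤ mp v D := fun h => hO.2 ((le_mp hD0 2).2 h)
      omega
    rw [hD, mp_mul hc hP, mp_prod _ _ fun j _ => hx j] at h5
    have h6 : ∀ i, (if Once D v ∧ x i ∈ v.asIdeal then Real.log (nv v) else 0) ≤
        (mp v (x i) : ℝ) * Real.log (nv v) := by
      intro i
      split_ifs with h
      · have h7 := (mem_iff_mp (hx i)).1 h.2
        have h8 : (1 : ℝ) ≤ mp v (x i) := by exact_mod_cast h7
        nlinarith
      · positivity
    refine (sum_le_sum fun i _ => h6 i).trans ?_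
    rw [← sum_mul]
    have h7 : ∑ i, mp v (x i) ≤ 1 := by omega
    have h8 : ∑ i, (mp v (x i) : ℝ) ≤ 1 := by exact_mod_cast h7
    nlinarith
  · rw [if_neg hO]
    refine (sum_eq_zero fun i _ => ?_).le
    rw [if_neg fun h => hO h.1]

end Pool.Agent.H433.CP
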