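import Pool.Agent.H433.CP.Num
import Pool.Agent.H80.CP.D1
import Pool.Agent.H115.CP.P1
import Pool.Agent.H163.CP.C2
import Pool.Agent.H51.CP.C1

/-!
The main theorems for the polynomials with rational critical points.
-/

set_option autoImplicit false
set_option linter.unusedSectionVars false
set_option linter.unusedVariables false

open NumberField IsDedekindDomain Finset Polynomial Filter Topology

namespace Pool.Agent.H433.CP

open Pool.Agent.H433.AC Pool.Agent.H433.HG Pool.Agent.H433.HD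
open Pool.Agent.H433.GT (mi le_mi)

variable {K L : Type} [Field K] [NumberField K] [Field L] [NumberField L] [Algebra K L] {g : ℕ}

/-- the primes which divide the discriminant exactly once are nodes -/
theorem node_of_once [IsGalois K L] {b : Fin (2 * g + 1) → 𝓞 L} (h : Dif b)
    (hp : ∀ σ : Gal(L/K), σ ≠ 1 → ∃ q ∈ prs (2 * g + 1), (b q.1 : L) = σ (b q.2 : L))
    {D : 𝓞 K} {k : ℕ} (hD : algebraMap (𝓞 K) (𝓞 L) D = (-1) ^ k * Pr b ^ 2)
    {v : HeightOneSpectrum (𝓞 K)} (hv : Once D v) : Node (fun i => (b i : L)) v := by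
  intro u hu
  have e1 (p : Fin (2 * g + 1) × Fin (2 * g + 1)) :
      u.valuation L ((b p.1 : L) - (b p.2 : L)) < 1 ↔ b p.1 - b p.2 ∈ u.asIdeal := by
    rw [← dif_co]
    exact u.valuation_lt_one_iff_mem (K := L) _
  have h1 : 1 ≤ mi u (J L v) := (le_mi (J_ne v) 1).1 (by rw [pow_one]; exact Ideal.dvd_iff_le.2 (over_iff.1 hu))
  obtain ⟨-, p, hp', hs⟩ := smp_of_once h hp hD hv h1
  exact ⟨p, ⟨mem_prs.1 hp', (e1 p).2 hs.2.1⟩, fun q hq =>
    hs.2.2.2 q (mem_prs.2 hq.1) ((e1 q).1 hq.2)⟩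

open Classical in
/-- the set of the primes which divide `D` exactly once -/
theorem exists_once {D : 𝓞 K} (hD : D ≠ 0) : ∃ V : Finset (HeightOneSpectrum (𝓞 K)),
    (∀ v, v ∈ V ↔ Once D v) ∧ part V D = once D := by
  set V : Finset (HeightOneSpectrum (𝓞 K)) := (finite_mem hD).toFinset.filter (Once D) with hV
  have hmV (v : HeightOneSpectrum (𝓞 K)) : v ∈ V ↔ Once D v := by
    rw [hV, mem_filter, Set.Finite.mem_toFinset]
    exact ⟨fun h => h.2, fun h => ⟨h.1, h⟩⟩
  refine ⟨V, hmV, ?_⟩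
  have e0 : once D = ∑ v ∈ V, Real.log (nv v) := by
    unfold once
    rw [finsum_eq_sum_of_support_subset (s := V) _ fun v hv => ?_]
    · exact sum_congr rfl fun v hv => if_pos ((hmV v).1 hv)
    · rw [Function.mem_support] at hv
      rw [mem_coe, hmV]
      by_contra hcon
      rw [if_neg hcon] at hv
      exact hv rfl
  rw [e0]
  unfold part
  refine sum_congr rfl fun v hv => ?_
  have hO := (hmV v).1 hv
  have h1 : multiplicity v.asIdeal (Ideal.span {D}) = 1 := by
    have h6 := (mem_iff_mp hD).1 hO.1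
    have h7 : ¬ 2 ≤ mp v D := fun h => hO.2 ((le_mp hD 2).2 h)
    unfold mp at h6 h7
    omega
  rw [h1]
  simp

/-- the size of the differences of the roots -/
theorem root_size {f : (𝓞 K)[X]} {a : Fin (2 * g + 1) → L}
    (ha : f.map (algebraMap (𝓞 K) L) = ∏ i, (X - C (a i))) {M : ℝ}
    (hM : ∀ a : L, (f.map (algebraMap (𝓞 K) L)).eval a = 0 → ∀ w : InfinitePlace L, w a ≤ M)
    (w : InfinitePlace L) (i j : Fin (2 * g + 1)) : w (a i - a j) ≤ 2 * M := by
  have h1 (i : Fin (2 * g + 1)) : w (a i) ≤ M := by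
    refine hM _ ?_ w
    rw [ha, eval_prod]
    exact prod_eq_zero (mem_univ i) (by simp)
  have h2 : w (a i - a j) ≤ w (a i) + w (a j) := by
    rw [← InfinitePlace.norm_embedding_eq, ← InfinitePlace.norm_embedding_eq,
      ← InfinitePlace.norm_embedding_eq, map_sub]
    exact norm_sub_le _ _
  linarith [h1 i, h1 j]

/-- all the conclusions for one polynomial -/
theorem ls_of (hg : 1 ≤ g) {ε : ℝ} (hε : 0 < ε) {T : ℕ} (hT : 1 ≤ T) {f : (𝓞 K)[X]}
    (hf : f.Monic) (hD : f.discr ≠ 0) {B : ℝ} (hB : 1 ≤ B)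
    (hM : ∀ (L : Type) [Field L] [NumberField L] [Algebra K L] (a : L),
      (f.map (algebraMap (𝓞 K) L)).eval a = 0 → ∀ w : InfinitePlace L,
        w a ≤ B * (T : ℝ) ^ ((2 * g + 1 : ℝ)⁻¹))
    (h1 : (g : ℝ) ^ 2 * (Module.finrank ℚ K * (Real.log (2 * B) + (2 * g + 1 : ℝ)⁻¹ * Real.log T)) ≤
      (g ^ 2 / (2 * g + 1) + ε) * (Module.finrank ℚ K * Real.log T))
    (h2 : ∀ k : ℝ, 0 ≤ k → (k / (2 * g + 1) - ε) * (Module.finrank ℚ K * Real.log T) ≤
      3 / 4 * (once f.discr - (2 * g * (2 * g + 1) - 4 / 3 * k) *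
        (Module.finrank ℚ K * (Real.log (2 * B) + (2 * g + 1 : ℝ)⁻¹ * Real.log T))) -
        4 * g * Module.finrank ℚ K) : LangSilverman g ε T f := by
  refine ⟨hD, fun L _ _ _ hs a ha => ?_⟩
  have hT0 : (0 : ℝ) < T := by exact_mod_cast hT
  have hℓ : 0 ≤ Real.log T := Real.log_nonneg (by exact_mod_cast hT)
  set M : ℝ := 2 * (B * (T : ℝ) ^ ((2 * g + 1 : ℝ)⁻¹)) with hMd
  have hM' : ∀ (w : InfinitePlace L) (i j : Fin (2 * g + 1)),
      w (a i - a j) ≤ (fun _ : InfinitePlace K => M) (w.comap (algebraMap K L)) :=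
    fun w i j => root_size ha (hM L) w i j
  have hsz : sz (fun _ : InfinitePlace K => M) =
      Module.finrank ℚ K * (Real.log (2 * B) + (2 * g + 1 : ℝ)⁻¹ * Real.log T) := by
    rw [sz_const, hMd, ← mul_assoc, Real.log_mul (by positivity) (by positivity),
      Real.log_rpow hT0]
  obtain ⟨hinj, hht, hall⟩ := HD.main g hg K L f hf hD a ha (fun _ => M) hM'
  rw [hsz] at hht hall
  have hnL : (0 : ℝ) ≤ Module.finrank K L := Nat.cast_nonneg _
  refine ⟨hinj, hht.trans (mul_le_mul_of_nonneg_left h1 hnL), fun E _ _ _ Z hZ => ?_⟩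
  obtain ⟨ht1, ht2⟩ := hall E Z hZ
  have hnE : (0 : ℝ) ≤ Module.finrank L E := Nat.cast_nonneg _
  have hdℓ : 0 ≤ (Module.finrank ℚ K : ℝ) * Real.log T := mul_nonneg (Nat.cast_nonneg _) hℓ
  have hnum (k : ℝ) (hk : 0 ≤ k) : (k / (4 * (2 * g + 1)) - ε) *
      (Module.finrank ℚ K * Real.log T) ≤ 3 / 16 * (once f.discr -
        (2 * g * (2 * g + 1) - 4 / 3 * k) *
        (Module.finrank ℚ K * (Real.log (2 * B) + (2 * g + 1 : ℝ)⁻¹ * Real.log T))) -
        g * Module.finrank ℚ K := by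
    have h3 := h2 k hk
    have e1 : (k / (4 * (2 * g + 1)) - ε) * (Module.finrank ℚ K * Real.log T) =
        1 / 4 * ((k / (2 * g + 1) - ε) * (Module.finrank ℚ K * Real.log T)) -
          3 / 4 * (ε * (Module.finrank ℚ K * Real.log T)) := by
      field_simp
      ring
    rw [e1]
    have e2 : 0 ≤ ε * (Module.finrank ℚ K * Real.log T) := mul_nonneg hε.le hdℓ
    linarith
  have hmul {x y : ℝ} (h : x ≤ y) : (Module.finrank L E : ℝ) * (Module.finrank K L * x) ≤
      Module.finrank L E * (Module.finrank K L * y) :=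
    mul_le_mul_of_nonneg_left (mul_le_mul_of_nonneg_left h hnL) hnE
  refine ⟨ht1, ?_, fun n hn => ?_⟩
  · rcases ht2 with h3 | h3
    · exact Or.inl h3
    · refine Or.inr fun S hS => ⟨?_, fun l B' hl hd => ?_⟩
      · have h4 := (h3 S hS).1
        have h5 := hmul (hnum 1 zero_le_one)
        rw [mul_one] at h5
        linarith
      · have h4 := (h3 S hS).2 l B' hl hd
        have h5 := hmul (hnum l.length (Nat.cast_nonneg _))
        linarith
  · -- the points in the identity component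
    have hint (i : Fin (2 * g + 1)) : IsIntegral ℤ (a i) := by
      have h1 : IsIntegral (𝓞 K) (a i) := by
        refine ⟨f, hf, ?_⟩
        rw [← eval_map, ha, eval_prod]
        exact prod_eq_zero (mem_univ i) (by simp)
      exact isIntegral_trans (R := ℤ) (A := 𝓞 K) _ h1
    set b : Fin (2 * g + 1) → 𝓞 L := fun i => ⟨a i, hint i⟩ with hb
    have hba (i : Fin (2 * g + 1)) : ((b i : 𝓞 L) : L) = a i := rfl
    have hbf : (fun i => ((b i : 𝓞 L) : L)) = a := rfl
    have hab : f.map (algebraMap (𝓞 K) (𝓞 L)) = ∏ i, (X - C (b i)) := by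
      apply Polynomial.map_injective (algebraMap (𝓞 L) L) (RingOfIntegers.coe_injective)
      rw [Polynomial.map_map, ← IsScalarTower.algebraMap_eq (𝓞 K) (𝓞 L) L, ha,
        Polynomial.map_prod]
      refine prod_congr rfl fun i _ => ?_
      simp [hba]
    obtain ⟨k, hk⟩ := discr_eq hf hab
    have hPr : Pr b ≠ 0 := by
      intro h0
      rw [h0, zero_pow two_ne_zero, mul_zero] at hk
      exact hD ((map_eq_zero_iff _ alg_inj).1 hk)
    have hDif : Dif b := fun q hq => by
      have := prod_ne_zero_iff.1 hPr q hq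
      exact this
    have : Normal K L := Normal.of_isSplittingField (f.map (algebraMap (𝓞 K) K))
    have : IsGalois K L := {}
    have hperm := galois_perm (K := K) hab hDif.inj
    obtain ⟨V, hV1, hV2⟩ := exists_once hD
    obtain ⟨-, hall'⟩ := main_id g hg K L f hf hD a ha (fun _ => M) hM' V fun v hv =>
      node_of_once hDif hperm hk ((hV1 v).1 hv)
    obtain ⟨-, -, h3⟩ := hall' E Z hZ
    obtain ⟨-, h4⟩ := h3 n fun v hv u w hu hw => hn v ((hV1 v).1 hv) u w hu hw
    rw [hV2, hsz] at h4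
    rcases h4 with h5 | h5
    · exact Or.inl h5
    · refine Or.inr fun S hS => ⟨?_, fun l B' hl hd => ?_⟩
      · have h6 := (h5 S hS).1
        have h7 := hmul (h2 1 zero_le_one)
        rw [mul_one] at h7
        linarith
      · have h6 := (h5 S hS).2 l B' hl hd
        have h7 := hmul (h2 l.length (Nat.cast_nonneg _))
        linarith

end Pool.Agent.H433.CP
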