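import Pool.Agent.H433.CP.Main

/-!
The main theorems for the polynomials with rational critical points.
-/

set_option autoImplicit false
set_option linter.unusedSectionVars false
set_option linter.unusedVariables false

open NumberField IsDedekindDomain Finset Polynomial Filter Topology

namespace Pool.Agent.H433.CP

open Pool.Agent.H433.AC Pool.Agent.H433.HG Pool.Agent.H433.HD

variable {K : Type} [Field K] [NumberField K] {g : ℕ}

/-- the points of finite order, for one polynomial -/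
theorem tb_of (hg : 1 ≤ g) {ε : ℝ} (hε : ε < 1 / (2 * g + 1)) {T : ℕ} (hT : 2 ≤ T) {f : (𝓞 K)[X]}
    (hf : f.Monic) (hD : f.discr ≠ 0) {B : ℝ} (hB : 1 ≤ B)
    (hM : ∀ (L : Type) [Field L] [NumberField L] [Algebra K L] (a : L),
      (f.map (algebraMap (𝓞 K) L)).eval a = 0 → ∀ w : InfinitePlace L,
        w a ≤ B * (T : ℝ) ^ ((2 * g + 1 : ℝ)⁻¹))
    (h2 : ∀ k : ℝ, 0 ≤ k → (k / (2 * g + 1) - ε) * (Module.finrank ℚ K * Real.log T) ≤
      3 / 4 * (once f.discr - (2 * g * (2 * g + 1) - 4 / 3 * k) *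
        (Module.finrank ℚ K * (Real.log (2 * B) + (2 * g + 1 : ℝ)⁻¹ * Real.log T))) -
        4 * g * Module.finrank ℚ K) : TorsionBound g f := by
  refine ⟨hD, fun L _ _ _ hs a ha => ?_⟩
  have hT0 : (0 : ℝ) < T := by
    have : 0 < T := by omega
    exact_mod_cast this
  have hℓ : 0 < Real.log T := Real.log_pos (by exact_mod_cast hT)
  set M : ℝ := 2 * (B * (T : ℝ) ^ ((2 * g + 1 : ℝ)⁻¹)) with hMd
  have hM' : ∀ (w : InfinitePlace L) (i j : Fin (2 * g + 1)),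
      w (a i - a j) ≤ (fun _ : InfinitePlace K => M) (w.comap (algebraMap K L)) :=
    fun w i j => root_size ha (hM L) w i j
  have hsz : sz (fun _ : InfinitePlace K => M) =
      Module.finrank ℚ K * (Real.log (2 * B) + (2 * g + 1 : ℝ)⁻¹ * Real.log T) := by
    rw [sz_const, hMd, ← mul_assoc, Real.log_mul (by positivity) (by positivity),
      Real.log_rpow hT0]
  have hd0 : (0 : ℝ) < Module.finrank ℚ K := by exact_mod_cast Module.finrank_pos
  have hnum : (2 * g * (2 * g + 1) - 4 / 3) *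
      (Module.finrank ℚ K * (Real.log (2 * B) + (2 * g + 1 : ℝ)⁻¹ * Real.log T)) +
      16 / 3 * g * Module.finrank ℚ K < once f.discr := by
    have h3 := h2 1 zero_le_one
    have h4 : 0 < (1 / (2 * g + 1) - ε) * (Module.finrank ℚ K * Real.log T) :=
      mul_pos (by linarith) (mul_pos hd0 hℓ)
    rw [mul_one] at h3
    linarith
  have hint (i : Fin (2 * g + 1)) : IsIntegral ℤ (a i) := by
    have h1 : IsIntegral (𝓞 K) (a i) := by
      refine ⟨f, hf, ?_⟩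
      rw [← eval_map, ha, eval_prod]
      exact prod_eq_zero (mem_univ i) (by simp)
    exact isIntegral_trans (R := ℤ) (A := 𝓞 K) _ h1
  set b : Fin (2 * g + 1) → 𝓞 L := fun i => ⟨a i, hint i⟩ with hb
  have hba (i : Fin (2 * g + 1)) : ((b i : 𝓞 L) : L) = a i := rfl
  have hab : f.map (algebraMap (𝓞 K) (𝓞 L)) = ∏ i, (X - C (b i)) := by
    apply Polynomial.map_injective (algebraMap (𝓞 L) L) (RingOfIntegers.coe_injective)
    rw [Polynomial.map_map, ← IsScalarTower.algebraMap_eq (𝓞 K) (𝓞 L) L, ha,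
      Polynomial.map_prod]
    refine prod_congr rfl fun i _ => ?_
    simp [hba]
  obtain ⟨k, hk⟩ := discr_eq hf hab
  have hPr : Pr b ≠ 0 := by
    intro h0
    rw [h0, zero_pow two_ne_zero, mul_zero] at hk
    exact hD ((map_eq_zero_iff _ alg_inj).1 hk)
  have hDif : Dif b := fun q hq => by
    have := prod_ne_zero_iff.1 hPr q hq
    exact this
  have : Normal K L := Normal.of_isSplittingField (f.map (algebraMap (𝓞 K) K))
  have : IsGalois K L := {}
  have hperm := galois_perm (K := K) hab hDif.inj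
  obtain ⟨V, hV1, hV2⟩ := exists_once hD
  obtain ⟨hinj, hall'⟩ := main_id g hg K L f hf hD a ha (fun _ => M) hM' V fun v hv =>
    node_of_once hDif hperm hk ((hV1 v).1 hv)
  refine ⟨hinj, fun E _ _ _ Z hZ hto n hn => ?_⟩
  obtain ⟨-, -, h3⟩ := hall' E Z hZ
  obtain ⟨h4, -⟩ := h3 n fun v hv u w hu hw => hn v ((hV1 v).1 hv) u w hu hw
  rw [hV2, hsz] at h4
  exact h4 hto hnum

open Classical in
/-- the exceptional set -/
theorem exc (g : ℕ) (hg : 1 ≤ g) (K : Type) [Field K] [NumberField K] {A : ℝ} (hA : 1 ≤ A)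
    {ε : ℝ} (hε : 0 < ε) : ∃ B : ℝ, 1 ≤ B ∧ ∃ C δ : ℝ, 0 < δ ∧ ∀ T : ℕ, 1 ≤ T →
      ∀ (φ : (𝓞 K)[X]) (c : Fin (2 * g) → 𝓞 K), Crit g A T φ c → ∃ S : Finset (𝓞 K),
        (S.card : ℝ) ≤ C * (T : ℝ) ^ (-δ) * (box K T).card ∧ ∀ t ∈ box K T, t ∉ S →
          2 ≤ T ∧ (φ - Polynomial.C t).Monic ∧ (φ - Polynomial.C t).discr ≠ 0 ∧
          (∀ (L : Type) [Field L] [NumberField L] [Algebra K L] (a : L),
            ((φ - Polynomial.C t).map (algebraMap (𝓞 K) L)).eval a = 0 →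
            ∀ w : InfinitePlace L, w a ≤ B * (T : ℝ) ^ ((2 * g + 1 : ℝ)⁻¹)) ∧
          (g : ℝ) ^ 2 * (Module.finrank ℚ K *
            (Real.log (2 * B) + (2 * g + 1 : ℝ)⁻¹ * Real.log T)) ≤
            (g ^ 2 / (2 * g + 1) + ε) * (Module.finrank ℚ K * Real.log T) ∧
          ∀ k : ℝ, 0 ≤ k → (k / (2 * g + 1) - ε) * (Module.finrank ℚ K * Real.log T) ≤
            3 / 4 * (once (φ - Polynomial.C t).discr - (2 * g * (2 * g + 1) - 4 / 3 * k) *
            (Module.finrank ℚ K * (Real.log (2 * B) + (2 * g + 1 : ℝ)⁻¹ * Real.log T))) -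
            4 * g * Module.finrank ℚ K := by
  obtain ⟨B, hB, hbd⟩ := exists_bound H115.CP.p1 K g A hA
  set d := Module.finrank ℚ K with hd
  have hd1 : 1 ≤ d := Module.finrank_pos
  set C₁ : ℝ := Real.log (Nm (((2 * g + 1 : ℕ) : 𝓞 K) ^ (2 * g + 1))) with hC₁
  have hN0 : ((2 * g + 1 : ℕ) : 𝓞 K) ^ (2 * g + 1) ≠ 0 := by
    refine pow_ne_zero _ ?_
    rw [Nat.cast_ne_zero]
    omega
  have hC₁0 : 0 ≤ C₁ := by
    refine Real.log_nonneg ?_
    exact_mod_cast Nat.one_le_iff_ne_zero.2 (Nm_ne hN0)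
  obtain ⟨η, hη0, hη1, ℓ₀, hℓ₀, hnum⟩ := num g d hg hd1 hB hε hC₁0
  obtain ⟨B₁, hB₁, hcnt⟩ := H51.CP.c1 H80.CP.d1 H163.CP.c2 K (2 * g) B (η / 2) hB (by linarith)
  obtain ⟨T₀, hT₀⟩ := exists_nat_ge (max 2 (Real.exp ℓ₀))
  have hT₀2 : (2 : ℝ) ≤ T₀ := (le_max_left _ _).trans hT₀
  have hT₀0 : (0 : ℝ) < T₀ := by linarith
  refine ⟨B, hB, 2 * B₁ + (T₀ : ℝ) ^ (η / 2), η / 2, by linarith, fun T hT φ c hc => ?_⟩
  have hT0 : (0 : ℝ) < T := by exact_mod_cast hT
  have hT1 : (1 : ℝ) ≤ T := by exact_mod_cast hT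
  have hcard0 : (0 : ℝ) ≤ (box K T).card := Nat.cast_nonneg _
  have hTδ : 0 < (T : ℝ) ^ (-(η / 2)) := Real.rpow_pos_of_pos hT0 _
  rcases lt_or_ge T T₀ with hlt | hge
  · refine ⟨box K T, ?_, fun t ht hn => absurd ht hn⟩
    have h1 : (1 : ℝ) ≤ (T₀ : ℝ) ^ (η / 2) * (T : ℝ) ^ (-(η / 2)) := by
      rw [Real.rpow_neg hT0.le, ← div_eq_mul_inv, one_le_div (Real.rpow_pos_of_pos hT0 _)]
      exact Real.rpow_le_rpow hT0.le (by exact_mod_cast hlt.le) (by linarith)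
    have h2 : 0 ≤ 2 * B₁ * (T : ℝ) ^ (-(η / 2)) := by positivity
    have h3 : (1 : ℝ) ≤ (2 * B₁ + (T₀ : ℝ) ^ (η / 2)) * (T : ℝ) ^ (-(η / 2)) := by
      rw [add_mul]
      linarith
    exact le_mul_of_one_le_left hcard0 h3
  · have hTT₀ : (T₀ : ℝ) ≤ T := by exact_mod_cast hge
    have hℓT : ℓ₀ ≤ Real.log T := by
      rw [Real.le_log_iff_exp_le hT0]
      exact ((le_max_right _ _).trans hT₀).trans hTT₀
    have hℓ : 0 ≤ Real.log T := Real.log_nonneg hT1
    set Y : ℝ := (T : ℝ) ^ η with hY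
    set R : ℝ := (T : ℝ) ^ (1 - η) with hR
    have hY1 : 1 ≤ Y := Real.one_le_rpow hT1 hη0.le
    have hR1 : 1 ≤ R := Real.one_le_rpow hT1 (by linarith)
    obtain ⟨hv, hroot⟩ := hbd T hT φ c hc
    refine ⟨(box K T).filter fun t => Bad (fun i => φ.eval (c i)) Y R t, ?_, fun t ht hn => ?_⟩
    · refine (hcnt T hT _ hc.inj hv Y R hY1 hR1 _ fun t ht => mem_filter.1 ht).trans ?_
      have h1 : R / T + (T : ℝ) ^ (η / 2) / Y ≤ 2 * (T : ℝ) ^ (-(η / 2)) := by
        have e1 : R / T = (T : ℝ) ^ (-η) := by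
          rw [hR, Real.rpow_sub hT0, Real.rpow_one, Real.rpow_neg hT0.le]
          field_simp
        have e2 : (T : ℝ) ^ (η / 2) / Y = (T : ℝ) ^ (-(η / 2)) := by
          rw [hY, ← Real.rpow_sub hT0]
          congr 1
          ring
        have e3 : (T : ℝ) ^ (-η) ≤ (T : ℝ) ^ (-(η / 2)) :=
          Real.rpow_le_rpow_of_exponent_le hT1 (by linarith)
        rw [e1, e2]
        linarith
      have h2 : (T : ℝ) ^ Module.finrank ℚ K ≤ (box K T).card := by
        rw [card_box]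
        push_cast
        exact pow_le_pow_left₀ hT0.le (by linarith) _
      calc B₁ * (T : ℝ) ^ Module.finrank ℚ K * (R / T + (T : ℝ) ^ (η / 2) / Y)
          ≤ B₁ * (T : ℝ) ^ Module.finrank ℚ K * (2 * (T : ℝ) ^ (-(η / 2))) :=
            mul_le_mul_of_nonneg_left h1 (by positivity)
        _ = 2 * B₁ * (T : ℝ) ^ (-(η / 2)) * (T : ℝ) ^ Module.finrank ℚ K := by ring
        _ ≤ 2 * B₁ * (T : ℝ) ^ (-(η / 2)) * (box K T).card :=
            mul_le_mul_of_nonneg_left h2 (by positivity)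
        _ ≤ (2 * B₁ + (T₀ : ℝ) ^ (η / 2)) * (T : ℝ) ^ (-(η / 2)) * (box K T).card := by
            refine mul_le_mul_of_nonneg_right (mul_le_mul_of_nonneg_right ?_ hTδ.le) hcard0
            have : 0 ≤ (T₀ : ℝ) ^ (η / 2) := by positivity
            linarith
    · have hb : ¬ Bad (fun i => φ.eval (c i)) Y R t := fun h => hn (mem_filter.2 ⟨ht, h⟩)
      obtain ⟨hD, hO⟩ := once_low hc hY1 hR1 hb
      have hT2 : 2 ≤ T := by
        have : (2 : ℝ) ≤ T := hT₀2.trans hTT₀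
        exact_mod_cast this
      have hmon : (φ - Polynomial.C t).Monic := by
        refine hc.monic.sub_of_left ?_
        rw [degree_eq_natDegree hc.monic.ne_zero, hc.deg]
        refine lt_of_le_of_lt degree_C_le ?_
        rw [← Nat.cast_zero]
        exact_mod_cast Nat.succ_pos _
      have hlR : Real.log R = (1 - η) * Real.log T := Real.log_rpow hT0 _
      have hlY : Real.log Y = η * Real.log T := Real.log_rpow hT0 _
      rw [hlR, hlY] at hO
      obtain ⟨h1, h2⟩ := hnum (Real.log T) (once (φ - Polynomial.C t).discr) _ hℓT rfl hO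
      exact ⟨hT2, hmon, hD, hroot t ht, h1, h2⟩

open Classical in
/-- Lang-Silverman for almost all `t` -/
theorem main_ls (g : ℕ) (hg : 1 ≤ g) (K : Type) [Field K] [NumberField K] {A : ℝ} (hA : 1 ≤ A)
    {ε : ℝ} (hε : 0 < ε) : ∃ C δ : ℝ, 0 < δ ∧ ∀ T : ℕ, 1 ≤ T →
      ∀ (φ : (𝓞 K)[X]) (c : Fin (2 * g) → 𝓞 K), Crit g A T φ c →
        (((box K T).filter fun t => ¬ LangSilverman g ε T (φ - Polynomial.C t)).card : ℝ) ≤
          C * (T : ℝ) ^ (-δ) * (box K T).card := by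
  obtain ⟨B, hB, C, δ, hδ, h⟩ := exc g hg K hA hε
  refine ⟨C, δ, hδ, fun T hT φ c hc => ?_⟩
  obtain ⟨S, hS, h1⟩ := h T hT φ c hc
  refine le_trans ?_ hS
  norm_cast
  refine card_le_card fun t ht => ?_
  rw [mem_filter] at ht
  by_contra hn
  obtain ⟨h2, h3, h4, h5, h6, h7⟩ := h1 t ht.1 hn
  exact ht.2 (ls_of hg hε hT h3 h4 hB h5 h6 h7)

open Classical in
/-- the points of finite order for almost all `t` -/
theorem main_tb (g : ℕ) (hg : 1 ≤ g) (K : Type) [Field K] [NumberField K] {A : ℝ} (hA : 1 ≤ A) :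
    ∃ C δ : ℝ, 0 < δ ∧ ∀ T : ℕ, 1 ≤ T →
      ∀ (φ : (𝓞 K)[X]) (c : Fin (2 * g) → 𝓞 K), Crit g A T φ c →
        (((box K T).filter fun t => ¬ TorsionBound g (φ - Polynomial.C t)).card : ℝ) ≤
          C * (T : ℝ) ^ (-δ) * (box K T).card := by
  have hε : (0 : ℝ) < 1 / (2 * (2 * g + 1)) := by positivity
  have hε' : (1 : ℝ) / (2 * (2 * g + 1)) < 1 / (2 * g + 1) := by
    have h0 : (0 : ℝ) < 2 * g + 1 := by positivity
    exact one_div_lt_one_div_of_lt h0 (by linarith)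
  obtain ⟨B, hB, C, δ, hδ, h⟩ := exc g hg K hA hε
  refine ⟨C, δ, hδ, fun T hT φ c hc => ?_⟩
  obtain ⟨S, hS, h1⟩ := h T hT φ c hc
  refine le_trans ?_ hS
  norm_cast
  refine card_le_card fun t ht => ?_
  rw [mem_filter] at ht
  by_contra hn
  obtain ⟨h2, h3, h4, h5, h6, h7⟩ := h1 t ht.1 hn
  exact ht.2 (tb_of hg hε' h2 h3 h4 hB h5 h7)

end Pool.Agent.H433.CP
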