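import Pool.Agent.H433.CP.Pol

/-!
Numerical estimates, and the part of the discriminant of the primes which divide it once.
-/

set_option autoImplicit false
set_option linter.unusedSectionVars false
set_option linter.unusedVariables false

open NumberField IsDedekindDomain Finset Polynomial

namespace Pool.Agent.H433.CP

open Pool.Agent.H433.AC Pool.Agent.H433.HG Pool.Agent.H433.HD

theorem num (g d : ℕ) (hg : 1 ≤ g) (hd : 1 ≤ d) {B ε C₁ : ℝ} (hB : 1 ≤ B) (hε : 0 < ε)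
    (hC₁ : 0 ≤ C₁) : ∃ η : ℝ, 0 < η ∧ η < 1 ∧ ∃ ℓ₀ : ℝ, 0 ≤ ℓ₀ ∧ ∀ ℓ O s : ℝ, ℓ₀ ≤ ℓ →
      s = d * (Real.log (2 * B) + (2 * g + 1 : ℝ)⁻¹ * ℓ) →
      2 * g * (d * ((1 - η) * ℓ)) - 2 * g * ((3 + 2 * g) * (η * ℓ) + C₁) ≤ O →
      g ^ 2 * s ≤ (g ^ 2 / (2 * g + 1) + ε) * (d * ℓ) ∧
      ∀ k : ℝ, 0 ≤ k → (k / (2 * g + 1) - ε) * (d * ℓ) ≤
        3 / 4 * (O - (2 * g * (2 * g + 1) - 4 / 3 * k) * s) - 4 * g * d := by
  have hgR : (1 : ℝ) ≤ g := by exact_mod_cast hg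
  have hdR : (1 : ℝ) ≤ d := by exact_mod_cast hd
  generalize hG : (g : ℝ) = G at *
  generalize hDD : (d : ℝ) = D at *
  set L2 := Real.log (2 * B) with hL2
  have hL20 : 0 ≤ L2 := Real.log_nonneg (by linarith)
  set N : ℝ := 2 * G + 1 with hN
  have hN0 : 0 < N := by linarith
  set C₃ : ℝ := 3 / 2 * G * C₁ + 3 / 2 * G * N * D * L2 + 4 * G * D with hC₃
  have hC₃0 : 0 ≤ C₃ := by positivity
  have hQ : 0 < 3 * G * (D + 3 + 2 * G) := by positivity
  refine ⟨min (1 / 2) (ε / (3 * G * (D + 3 + 2 * G))), lt_min (by norm_num) (div_pos hε hQ),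
    lt_of_le_of_lt (min_le_left _ _) (by norm_num), 2 * C₃ / ε + G ^ 2 * L2 / ε, by positivity,
    fun ℓ O s hℓ hs hO => ?_⟩
  set η := min (1 / 2) (ε / (3 * G * (D + 3 + 2 * G))) with hη
  have hη0 : 0 < η := lt_min (by norm_num) (div_pos hε hQ)
  have hη1 : η * (3 * G * (D + 3 + 2 * G)) ≤ ε := by
    have := min_le_right (1 / 2 : ℝ) (ε / (3 * G * (D + 3 + 2 * G)))
    rwa [← hη, le_div_iff₀ hQ] at this
  have h1 : 0 ≤ 2 * C₃ / ε := by positivity
  have h2 : 0 ≤ G ^ 2 * L2 / ε := by positivity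
  have hℓ1 : 2 * C₃ ≤ ε * ℓ := by
    have : 2 * C₃ / ε ≤ ℓ := by linarith
    rw [div_le_iff₀ hε] at this
    linarith
  have hℓ2 : G ^ 2 * L2 ≤ ε * ℓ := by
    have : G ^ 2 * L2 / ε ≤ ℓ := by linarith
    rw [div_le_iff₀ hε] at this
    linarith
  have hℓ0 : 0 ≤ ℓ := by linarith
  set u := N⁻¹ * ℓ with hu
  have hu1 : N * u = ℓ := by
    rw [hu, ← mul_assoc, mul_inv_cancel₀ hN0.ne', one_mul]
  refine ⟨?_, fun k hk => ?_⟩
  · have e1 : (G ^ 2 / N + ε) * (D * ℓ) = G ^ 2 * (D * u) + D * (ε * ℓ) := by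
      rw [← hu1]
      field_simp
    rw [e1, hs]
    have e2 : D * (G ^ 2 * L2) ≤ D * (ε * ℓ) := mul_le_mul_of_nonneg_left hℓ2 (by linarith)
    nlinarith
  · have e1 : (k / N - ε) * (D * ℓ) = k * (D * u) - D * (ε * ℓ) := by
      rw [← hu1]
      field_simp
    have e2 : ε * ℓ ≤ D * (ε * ℓ) := le_mul_of_one_le_left (by positivity) hdR
    have e3 : η * (3 * G * (D + 3 + 2 * G)) * ℓ ≤ ε * ℓ := mul_le_mul_of_nonneg_right hη1 hℓ0
    have e4 : 0 ≤ k * (D * L2) := by positivity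
    have e5 : 3 / 4 * (O - (2 * G * N - 4 / 3 * k) * s) - 4 * G * D =
        3 / 4 * O - 3 / 2 * G * N * D * L2 - 3 / 2 * G * D * ℓ + k * (D * L2) + k * (D * u) -
          4 * G * D := by
      rw [hs, ← hu1]
      ring
    rw [e1, e5]
    have e6 : 3 / 4 * (2 * G * (D * ((1 - η) * ℓ)) - 2 * G * ((3 + 2 * G) * (η * ℓ) + C₁)) =
        3 / 2 * G * D * ℓ - 1 / 2 * (η * (3 * G * (D + 3 + 2 * G)) * ℓ) - 3 / 2 * G * C₁ := by
      ring
    have e7 := mul_le_mul_of_nonneg_left hO (by norm_num : (0 : ℝ) ≤ 3 / 4)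
    rw [e6] at e7
    linarith

variable {K : Type} [Field K] [NumberField K]

theorem Nm_sign (e : ℕ) : Nm ((-1 : 𝓞 K) ^ e) = 1 := by
  unfold Nm
  rw [Ideal.span_singleton_eq_top.2 (isUnit_one.neg.pow e), Ideal.absNorm_top]

/-- the part of the discriminant of the primes which divide it exactly once -/
theorem once_low {g : ℕ} {A : ℝ} {T : ℕ} {φ : (𝓞 K)[X]} {c : Fin (2 * g) → 𝓞 K}
    (hc : Crit g A T φ c) {t : 𝓞 K} {Y R : ℝ} (hY : 1 ≤ Y) (hR : 1 ≤ R)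
    (hb : ¬ Bad (fun i => φ.eval (c i)) Y R t) : (φ - C t).discr ≠ 0 ∧
    2 * g * (Module.finrank ℚ K * Real.log R) - 2 * g * ((3 + 2 * g) * Real.log Y +
      Real.log (Nm (((2 * g + 1 : ℕ) : 𝓞 K) ^ (2 * g + 1)))) ≤ once (φ - C t).discr := by
  have hdeg : (φ - C t).natDegree = 2 * g + 1 := by
    rw [natDegree_sub_C, hc.deg]
  have hmon : (φ - C t).Monic := by
    refine hc.monic.sub_of_left ?_
    rw [degree_eq_natDegree hc.monic.ne_zero, hc.deg]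
    refine lt_of_le_of_lt degree_C_le ?_
    rw [← Nat.cast_zero]
    exact_mod_cast Nat.succ_pos _
  have hder : derivative (φ - C t) = C ((2 * g + 1 : ℕ) : 𝓞 K) * ∏ i, (X - C (c i)) := by
    rw [derivative_sub, derivative_C, sub_zero, hc.der]
  obtain ⟨e, he⟩ := discr_crit hmon hdeg hder
  set x : Fin (2 * g) → 𝓞 K := fun i => t - φ.eval (c i) with hx
  have hprod : ∏ i, (φ - C t).eval (c i) = ∏ i, x i := by
    have h1 : ∀ i, (φ - C t).eval (c i) = -x i := fun i => by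
      rw [eval_sub, eval_C, hx]
      ring
    rw [prod_congr rfl fun i _ => h1 i, prod_neg, card_univ, Fintype.card_fin, pow_mul]
    simp
  rw [hprod, ← mul_assoc] at he
  have hσ (i : Fin (2 * g)) (σ : K →+* ℂ) : R < ‖σ (x i : K)‖ := by
    by_contra h
    exact hb (Or.inl ⟨i, σ, not_lt.1 h⟩)
  obtain ⟨σ₀⟩ : Nonempty (K →+* ℂ) := inferInstance
  have hx0 (i : Fin (2 * g)) : x i ≠ 0 := by
    intro h
    have h1 := hσ i σ₀
    rw [h] at h1
    simp only [map_zero, norm_zero] at h1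
    linarith
  set N : 𝓞 K := ((2 * g + 1 : ℕ) : 𝓞 K) ^ (2 * g + 1) with hN
  have hN0 : N ≠ 0 := by
    rw [hN]
    refine pow_ne_zero _ ?_
    rw [Nat.cast_ne_zero]
    omega
  have hc0 : (-1 : 𝓞 K) ^ e * N ≠ 0 := mul_ne_zero (pow_ne_zero _ (by simp)) hN0
  refine ⟨?_, ?_⟩
  · rw [he]
    exact mul_ne_zero hc0 (prod_ne_zero_iff.2 fun i _ => hx0 i)
  have h1 := fam_le hY hx0 hc0 (fun i I hI => ?_) (fun i j hij I hI hJ => ?_)
  · rw [← he, Nm_mul, Nm_sign, one_mul] at h1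
    have h2 (i : Fin (2 * g)) : Module.finrank ℚ K * Real.log R ≤ Real.log (Nm (x i)) := by
      rw [Nm_emb, ← Real.log_pow]
      have hR0 : 0 < R := by linarith
      refine Real.log_le_log (pow_pos hR0 _) ?_
      rw [← Embeddings.card K ℂ, ← card_univ, ← prod_const]
      exact prod_le_prod (fun _ _ => hR0.le) fun σ _ => (hσ i σ).le
    have h3 := sum_le_sum fun i (_ : i ∈ (univ : Finset (Fin (2 * g)))) => h2 i
    rw [sum_const, card_univ, Fintype.card_fin, nsmul_eq_mul] at h3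
    push_cast at h1 h3 ⊢
    linarith
  · by_contra h
    exact hb (Or.inr (Or.inl ⟨i, I, not_lt.1 h, hI⟩))
  · by_contra h
    exact hb (Or.inr (Or.inr ⟨i, j, hij, I, not_lt.1 h, hI, hJ⟩))

end Pool.Agent.H433.CP
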