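import Pool.Agent.H433.CP.Stm
import Pool.Agent.H433.CP.Fac
import Pool.Agent.H433.CP.Def
import Pool.Agent.H433.HD.TorMain

/-!
Polynomials with rational critical points: the discriminant and the size of the roots.
-/

set_option autoImplicit false
set_option linter.unusedSectionVars false

open NumberField IsDedekindDomain Finset Polynomial

namespace Pool.Agent.H433.CP

open Pool.Agent.H433.AC (box)

/-- the discriminant of a polynomial with given critical points -/
theorem discr_crit {R : Type} [CommRing R] [IsDomain R] {m : ℕ} {f : R[X]} (hf : f.Monic)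
    (hn : f.natDegree = m + 1) {N : R} {c : Fin m → R}
    (hd : derivative f = C N * ∏ i, (X - C (c i))) :
    ∃ e : ℕ, f.discr = (-1) ^ e * (N ^ (m + 1) * ∏ i, f.eval (c i)) := by
  have hpos : 0 < f.degree := by
    rw [← natDegree_pos_iff_degree_pos, hn]
    omega
  have h1 := resultant_deriv hpos
  have hlc : ∏ i : Fin m, (X - C (c i)).leadingCoeff ≠ 0 := by
    simp
  have hdeg : (∏ i : Fin m, (X - C (c i))).natDegree = m := by
    rw [natDegree_prod_of_monic _ _ fun i _ => monic_X_sub_C _]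
    simp
  have h2 := resultant_prod_right univ f (fun i => X - C (c i)) (m + 1) hn.le hlc
  rw [hdeg] at h2
  rw [hf.leadingCoeff, mul_one, hn, hd, resultant_C_mul_right, Nat.add_sub_cancel, h2] at h1
  have h3 (i : Fin m) : f.resultant (X - C (c i)) (m + 1) (X - C (c i)).natDegree =
      (-1) ^ (m + 1) * f.eval (c i) := by
    rw [natDegree_X_sub_C, resultant_X_sub_C_right (hf := hn.le)]
  rw [prod_congr rfl fun i _ => h3 i, prod_mul_distrib, prod_const, card_univ, Fintype.card_fin]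
    at h1
  refine ⟨(m + 1) * m / 2 + (m + 1) * m, ?_⟩
  have h6 : ((-1 : R) ^ ((m + 1) * m / 2)) * (-1) ^ ((m + 1) * m / 2) = 1 := by
    rw [← mul_pow]
    simp
  calc f.discr = ((-1 : R) ^ ((m + 1) * m / 2)) * ((-1) ^ ((m + 1) * m / 2) * f.discr) := by
        rw [← mul_assoc, h6, one_mul]
    _ = _ := by
        have e9 : ((-1 : R) ^ (m + 1)) ^ m = (-1) ^ ((m + 1) * m) := (pow_mul _ _ _).symm
        rw [← h1, e9, pow_add]
        ring

variable {K : Type} [Field K] [NumberField K]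

/-- the size of the critical values and of the roots -/
theorem exists_bound (hP : S_P1) (K : Type) [Field K] [NumberField K] (g : ℕ) (A : ℝ)
    (hA : 1 ≤ A) : ∃ B : ℝ, 1 ≤ B ∧ ∀ T : ℕ, 1 ≤ T → ∀ (φ : (𝓞 K)[X]) (c : Fin (2 * g) → 𝓞 K),
      Crit g A T φ c → (∀ i, ∀ σ : K →+* ℂ, ‖σ ((φ.eval (c i) : 𝓞 K) : K)‖ ≤ B * T) ∧
      ∀ t ∈ box K T, ∀ (L : Type) [Field L] [NumberField L] [Algebra K L] (a : L),
        ((φ - C t).map (algebraMap (𝓞 K) L)).eval a = 0 → ∀ w : InfinitePlace L,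
          w a ≤ B * (T : ℝ) ^ ((2 * g + 1 : ℝ)⁻¹) := by
  obtain ⟨C₀, hC₀, hbox⟩ := AC.box_size K
  obtain ⟨B, hB, hB'⟩ := hP (2 * g) (1 + C₀) (by linarith)
  refine ⟨B * A, by nlinarith, fun T hT φ c hc => ?_⟩
  have hT0 : (0 : ℝ) < T := by exact_mod_cast hT
  have hAT : 0 < A * T := by positivity
  set ρ : ℝ := (A * T) ^ ((2 * g + 1 : ℝ)⁻¹) with hρ
  have hρ0 : 0 < ρ := Real.rpow_pos_of_pos hAT _
  have hn0 : (2 * g + 1 : ℝ) ≠ 0 := by positivity
  have hρn : ρ ^ (2 * g + 1) = A * T := by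
    rw [hρ, ← Real.rpow_natCast, ← Real.rpow_mul hAT.le]
    push_cast
    rw [inv_mul_cancel₀ hn0, Real.rpow_one]
  have hcρ (i : Fin (2 * g)) (σ : K →+* ℂ) : ‖σ (c i : K)‖ ≤ ρ := by
    have h1 := hc.size i σ
    rw [← hρn] at h1
    exact (pow_le_pow_iff_left₀ (norm_nonneg _) hρ0.le (by omega)).1 h1
  have hρA : ρ ≤ A * (T : ℝ) ^ ((2 * g + 1 : ℝ)⁻¹) := by
    rw [hρ, Real.mul_rpow (by linarith) hT0.le]
    refine mul_le_mul_of_nonneg_right ?_ (by positivity)
    calc A ^ ((2 * g + 1 : ℝ)⁻¹) ≤ A ^ (1 : ℝ) := by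
          refine Real.rpow_le_rpow_of_exponent_le hA ?_
          rw [inv_le_one₀ (by positivity)]
          have : (0 : ℝ) ≤ g := Nat.cast_nonneg g
          linarith
      _ = A := Real.rpow_one A
  -- the polynomials over `ℂ`
  have key (t : 𝓞 K) (ht : ∀ σ : K →+* ℂ, ‖σ (t : K)‖ ≤ C₀ * T) (σ : K →+* ℂ) :
      (∀ z, ((φ - C t).map (σ.comp (algebraMap (𝓞 K) K))).eval z = 0 → ‖z‖ ≤ B * ρ) ∧
      ∀ i, ‖((φ - C t).map (σ.comp (algebraMap (𝓞 K) K))).eval (σ (c i : K))‖ ≤
        B * ρ ^ (2 * g + 1) := by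
    have hdeg : (φ - C t).natDegree = 2 * g + 1 := by
      rw [natDegree_sub_C, hc.deg]
    have hmon : (φ - C t).Monic := by
      refine hc.monic.sub_of_left ?_
      rw [degree_eq_natDegree hc.monic.ne_zero, hc.deg]
      refine lt_of_le_of_lt degree_C_le ?_
      rw [← Nat.cast_zero]
      exact_mod_cast Nat.succ_pos _
    refine hB' _ (fun i => σ (c i : K)) ρ hρ0 (hmon.map _) ?_ ?_ (fun i => hcρ i σ) ?_
    · rw [hmon.natDegree_map, hdeg]
    · rw [derivative_map, derivative_sub, derivative_C, sub_zero, hc.der, Polynomial.map_mul,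
        Polynomial.map_prod, map_C]
      congr 1
      · congr 1
        rw [map_natCast]
        push_cast
        rfl
      · refine prod_congr rfl fun i _ => ?_
        rw [Polynomial.map_sub, map_X, map_C]
        rfl
    · rw [hρn, ← coeff_zero_eq_eval_zero, coeff_map, coeff_sub, coeff_C_zero, map_sub]
      refine (norm_sub_le _ _).trans ?_
      have h1 := hc.zero σ
      have h2 := ht σ
      have h3 : C₀ * T ≤ C₀ * (A * T) := by
        refine mul_le_mul_of_nonneg_left ?_ (by linarith)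
        exact le_mul_of_one_le_left hT0.le hA
      have e1 : (σ.comp (algebraMap (𝓞 K) K)) (φ.coeff 0) = σ (φ.coeff 0 : K) := rfl
      have e2 : (σ.comp (algebraMap (𝓞 K) K)) t = σ (t : K) := rfl
      rw [e1, e2]
      linarith
  refine ⟨fun i σ => ?_, fun t ht L _ _ _ a ha w => ?_⟩
  · have h1 := (key 0 (fun σ => by simp; positivity) σ).2 i
    rw [C_0, sub_zero, hρn] at h1
    have e1 : (φ.map (σ.comp (algebraMap (𝓞 K) K))).eval (σ (c i : K)) =
        σ ((φ.eval (c i) : 𝓞 K) : K) := by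
      have : (σ (c i : K)) = (σ.comp (algebraMap (𝓞 K) K)) (c i) := rfl
      rw [this, eval_map_apply]
      rfl
    rw [e1] at h1
    calc _ ≤ B * (A * T) := h1
      _ = B * A * T := by ring
  · set τ := w.embedding with hτ
    set σ : K →+* ℂ := τ.comp (algebraMap K L) with hσ
    have h1 := (key t (fun σ => hbox T t ht σ) σ).1 (τ a) ?_
    · have e1 : w a = ‖τ a‖ := (InfinitePlace.norm_embedding_eq w a).symm
      rw [e1]
      refine h1.trans ?_
      calc B * ρ ≤ B * (A * (T : ℝ) ^ ((2 * g + 1 : ℝ)⁻¹)) :=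
            mul_le_mul_of_nonneg_left hρA (by linarith)
        _ = _ := by ring
    · have e2 : (σ.comp (algebraMap (𝓞 K) K)) = τ.comp (algebraMap (𝓞 K) L) := by
        rw [hσ, RingHom.comp_assoc, IsScalarTower.algebraMap_eq (𝓞 K) K L]
      rw [e2, ← Polynomial.map_map, eval_map_apply, ha, map_zero]

end Pool.Agent.H433.CP
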