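import Pool.Agent.H433.AC.Cnt

/-!
Statements of the auxiliary theorems for the polynomials with rational critical points
(helper433, CP tasks).
-/

set_option autoImplicit false

open NumberField IsDedekindDomain Finset Polynomial

namespace Pool.Agent.H433.CP

/-- CP-D1 (divisor bound for ideals, Mathlib only).
Proof. Let `J = ∏ v ^ e_v`. An ideal `I` dividing `J` is determined by its exponents `≤ e_v`, so the
number of divisors is at most `∏ (e_v + 1)`; `N J = ∏ (N v) ^ e_v`. If `N v ≥ 2 ^ (1 / η)` then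
`e + 1 ≤ 2 ^ e ≤ (N v) ^ (η e)`. If `N v < 2 ^ (1 / η)` then `e + 1 ≤ C₁ 2 ^ (η e) ≤ C₁ (N v) ^ (η e)`
with `C₁ ≥ 1` depending on `η` only (for instance `C₁ = max 1 (1 / (η log 2)) * 2 ^ η`, or from
`e ^ x ≥ x`), and there are only finitely many such primes. -/
def S_D1 : Prop := ∀ (K : Type) [Field K] [NumberField K] (η : ℝ), 0 < η →
  ∃ C : ℝ, 1 ≤ C ∧ ∀ J : Ideal (𝓞 K), J ≠ ⊥ → ∀ S : Finset (Ideal (𝓞 K)), (∀ I ∈ S, I ∣ J) →
    (S.card : ℝ) ≤ C * (Ideal.absNorm J : ℝ) ^ η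

/-- CP-C2 (coordinates are bounded by conjugates, Mathlib only).
Proof. The coordinates of `x` with respect to the integral basis are `Tr (x β_i)` for the dual basis
`β_i` of the trace form (or: linear algebra in the canonical / mixed embedding space, all norms are
equivalent), and `Tr (x β_i)` is the sum of `σ x σ β_i` over the embeddings `σ` of `K` in `ℂ`. -/
def S_C2 : Prop := ∀ (K : Type) [Field K] [NumberField K], ∃ A : ℕ, 1 ≤ A ∧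
  ∀ (R : ℝ) (x : 𝓞 K), (∀ σ : K →+* ℂ, ‖σ (x : K)‖ ≤ R) →
    ∀ i, |((RingOfIntegers.basis K).repr x i : ℝ)| ≤ A * R

/-- CP-P1 (polynomials with given critical points, Mathlib only).
Proof. The coefficients of `∏ (X - c_i)` satisfy `‖coeff j‖ ≤ 2 ^ m ρ ^ (m - j)`
(`Polynomial.coeff_le_of_roots_le` or a direct induction), and
`(k + 1) p.coeff (k + 1) = (m + 1) (∏ (X - c_i)).coeff k`. So `‖p.coeff k‖ ≤ D ρ ^ (m + 1 - k)` for all
`k ≤ m + 1` with `D = (m + 1) 2 ^ m + A + 1`. For `‖z‖ ≤ ρ` this gives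
`‖p(z)‖ ≤ (m + 2) D ρ ^ (m + 1)`. If `p(z) = 0` and `‖z‖ ≥ ρ`, then
`‖z‖ ^ (m + 1) ≤ ∑_{k ≤ m} D ρ ^ (m + 1 - k) ‖z‖ ^ k ≤ (m + 1) D ρ ‖z‖ ^ m`, so `‖z‖ ≤ (m + 1) D ρ`. -/
def S_P1 : Prop := ∀ (m : ℕ) (A : ℝ), 0 ≤ A → ∃ B : ℝ, 1 ≤ B ∧
  ∀ (p : ℂ[X]) (c : Fin m → ℂ) (ρ : ℝ), 0 < ρ → p.Monic → p.natDegree = m + 1 →
    derivative p = C ((m : ℂ) + 1) * ∏ i, (X - C (c i)) → (∀ i, ‖c i‖ ≤ ρ) →
    ‖p.eval 0‖ ≤ A * ρ ^ (m + 1) →
    (∀ z, p.eval z = 0 → ‖z‖ ≤ B * ρ) ∧ ∀ i, ‖p.eval (c i)‖ ≤ B * ρ ^ (m + 1)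

/-- the exceptional translates -/
def Bad {K : Type} [Field K] [NumberField K] {k : ℕ} (v : Fin k → 𝓞 K) (Y R : ℝ) (t : 𝓞 K) : Prop :=
  (∃ i, ∃ σ : K →+* ℂ, ‖σ ((t - v i : 𝓞 K) : K)‖ ≤ R) ∨
  (∃ i, ∃ I : Ideal (𝓞 K), Y ≤ Ideal.absNorm I ∧ t - v i ∈ I ^ 2) ∨
  ∃ i j, i ≠ j ∧ ∃ I : Ideal (𝓞 K), Y ≤ Ideal.absNorm I ∧ t - v i ∈ I ∧ t - v j ∈ I

/-- CP-C1 (counting; uses `AC.card_ideal`, `AC.sq_count`, `AC.small_count`, `AC.mem_box`, `AC.Nm_emb`,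
and `S_D1`, `S_C2` as hypotheses of the theorem `c1 (h1 : S_D1) (h2 : S_C2) : S_C1`).
Proof. Let `d = [K : ℚ]`. By `S_C2` the elements `x_i = t - v_i`, `t ∈ box K T`, are in `box K (B T)`
with a natural number `B` which depends on `K`, `A` only. (1) The `t` in the first part of `Bad`
(this contains all `t` with `t = v_i`, since `‖σ 0‖ = 0 ≤ R`): `AC.small_count` for `H = B T` gives at
most `C (B T) ^ d (R / (B T))` values `x_i` for each `i`. (2) the `t` in the second part with all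
`x_i ≠ 0`: `AC.sq_count` gives at most `C (B T) ^ d / Y` for each `i`. (3) the `t` in the third part with
all `x_i ≠ 0`: the ideal `I` divides `v_j - v_i ≠ 0` (`(t - v_i) - (t - v_j)`), whose norm is at most
`(2 A T) ^ d` (`AC.Nm_emb`), so by `S_D1` with `η / d` there are at most `C (2 A T) ^ η` such ideals `I`
(for given `i ≠ j`), and for each of them `AC.card_ideal` gives at most `C (B T) ^ d / N(I)` values
`x_i`, with `N(I) ≥ Y`. Sum over `i`, `j`. -/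
def S_C1 : Prop := ∀ (K : Type) [Field K] [NumberField K] (k : ℕ) (A η : ℝ), 1 ≤ A → 0 < η →
  ∃ B : ℝ, 1 ≤ B ∧ ∀ T : ℕ, 1 ≤ T → ∀ v : Fin k → 𝓞 K, Function.Injective v →
    (∀ i, ∀ σ : K →+* ℂ, ‖σ (v i : K)‖ ≤ A * T) → ∀ Y R : ℝ, 1 ≤ Y → 1 ≤ R →
    ∀ S : Finset (𝓞 K), (∀ t ∈ S, t ∈ AC.box K T ∧ Bad v Y R t) →
      (S.card : ℝ) ≤ B * (T : ℝ) ^ Module.finrank ℚ K * (R / T + (T : ℝ) ^ η / Y)

end Pool.Agent.H433.CP
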